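import Mathlib
import Pool.Agent.H57.LDMain

/-!
The maximum local dimension of a finite poset of width `w` is exactly `w`.

The definitions (`PLE`, `PLE.Below`, `IsLocalRealizer`, `ldim`, `width`) are in
`Pool/Agent/H57/LDDefs.lean`.
-/

namespace Pool.Agent.Results.MP_33e188_co.MaxLocalDim

open Pool.Agent.H57.LD

lemma ldim_mem (α : Type) [PartialOrder α] [Fintype α] :
    ∃ F : Set (PLE α), IsLocalRealizer F ∧
      ∀ x : α, {L ∈ F | x ∈ L.carrier}.encard ≤ (ldim α : ℕ) :=
  Nat.sInf_mem (s := {t : ℕ | ∃ F : Set (PLE α), IsLocalRealizer F ∧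
    ∀ x : α, {L ∈ F | x ∈ L.carrier}.encard ≤ t}) ⟨width α, exists_realizer α⟩

/-- For every `w ≥ 1`, the largest local dimension of a finite poset of width `w` is `w`. -/
theorem result (w : ℕ) (hw : 1 ≤ w) :
    IsGreatest {d : ℕ | ∃ (α : Type) (_ : Fintype α) (_ : PartialOrder α),
      width α = w ∧ ldim α = d} w := by
  constructor
  · rcases Nat.lt_or_ge 1 w with h2 | h1
    · obtain ⟨N, hN⟩ := main_lower w h2
      have hwid : width (Pt (par w N) (size w N)) = w := Pt.width_eq (by unfold size; omega)
      refine ⟨Pt (par w N) (size w N), inferInstance, inferInstance, hwid, ?_⟩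
      apply le_antisymm
      · have := ldim_le_width (Pt (par w N) (size w N))
        rwa [hwid] at this
      · by_contra hcon
        push Not at hcon
        obtain ⟨F, hF, hF'⟩ := ldim_mem (Pt (par w N) (size w N))
        apply hN F hF
        intro x
        refine (hF' x).trans ?_
        have : ldim (Pt (par w N) (size w N)) ≤ w - 1 := by omega
        exact_mod_cast this
    · have hw1 : w = 1 := by omega
      subst hw1
      have hwid : width (Fin 2) = 1 := by
        apply le_antisymm
        · apply csSup_le
          · exact ⟨0, ∅, by simp, rfl⟩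
          · rintro k ⟨A, hA, rfl⟩
            rw [Finset.card_le_one]
            intro a ha b hb
            by_contra hne
            rcases le_total a b with h | h
            · exact hA ha hb hne h
            · exact hA hb ha (Ne.symm hne) h
        · simpa using le_width ({0} : Finset (Fin 2)) (by simp)
      refine ⟨Fin 2, inferInstance, inferInstance, hwid, ?_⟩
      apply le_antisymm
      · have := ldim_le_width (Fin 2)
        rwa [hwid] at this
      · by_contra hcon
        push Not at hcon
        obtain ⟨F, hF, hF'⟩ := ldim_mem (Fin 2)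
        obtain ⟨L, hL, h0, _⟩ := hF.1 0 1 (by decide)
        have h1 := hF' 0
        have h3 : ldim (Fin 2) = 0 := by omega
        rw [h3] at h1
        have h2 : {L ∈ F | (0 : Fin 2) ∈ L.carrier} = ∅ := by
          rw [← Set.encard_eq_zero]
          exact le_antisymm (by simpa using h1) (zero_le)
        have : L ∈ ({L ∈ F | (0 : Fin 2) ∈ L.carrier} : Set (PLE (Fin 2))) := ⟨hL, h0⟩
        rw [h2] at this
        exact this
  · rintro d ⟨α, hα, hP, hwid, rfl⟩
    rw [← hwid]
    exact ldim_le_width α

end Pool.Agent.Results.MP_33e188_co.MaxLocalDim
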